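import Pool.Agent.K1H77.PA.Stm

/-! # Closure properties of `Good` (pieces `S_ADD`, `S_SMUL`, `S_CONV`) -/

set_option autoImplicit false

open Pool.Agent.K1H77.PA

namespace Pool.Agent.K1H96.PA

section jn

variable {L σ Q1 Q2 : Type} [Field L]

/-- two automata side by side, with bridges from the first to the second -/
def jn (A1 : GA L σ Q1) (A2 : GA L σ Q2) (I F : Q1 ⊕ Q2 → L) (br : σ → Q1 → Q2 → L) :
    GA L σ (Q1 ⊕ Q2) where
  I := I
  M := fun a x y => match x, y with
    | Sum.inl p, Sum.inl q => A1.M a p q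
    | Sum.inr p, Sum.inr q => A2.M a p q
    | Sum.inl p, Sum.inr q => br a p q
    | Sum.inr _, Sum.inl _ => 0
  F := F

variable (A1 : GA L σ Q1) (A2 : GA L σ Q2) (I F : Q1 ⊕ Q2 → L) (br : σ → Q1 → Q2 → L)

theorem run_inr (w : List σ) : ∀ (p : Q2) (x : Q1 ⊕ Q2) (c : L),
    (jn A1 A2 I F br).Run w (Sum.inr p) x c → ∃ q, x = Sum.inr q ∧ A2.Run w p q c := by
  induction w with
  | nil =>
    intro p x c h
    cases h
    exact ⟨p, rfl, GA.Run.nil p⟩
  | cons a w ih =>
    intro p x c h
    cases h with
    | @cons _ _ _ r _ c h hr =>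
      rcases r with r | r
      · exact absurd rfl h
      · obtain ⟨q, hq, hr'⟩ := ih r x _ hr
        exact ⟨q, hq, GA.Run.cons h hr'⟩

theorem run_inl (w : List σ) : ∀ (p q : Q1) (c : L),
    (jn A1 A2 I F br).Run w (Sum.inl p) (Sum.inl q) c → A1.Run w p q c := by
  induction w with
  | nil =>
    intro p q c h
    cases h
    exact GA.Run.nil p
  | cons a w ih =>
    intro p q c h
    cases h with
    | @cons _ _ _ r _ c h hr =>
      rcases r with r | r
      · exact GA.Run.cons h (ih r q _ hr)
      · obtain ⟨q', hq', _⟩ := run_inr A1 A2 I F br w r _ _ hr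
        exact absurd hq' (by simp)

theorem run_E (E : L → Prop) (h1 : ∀ w q c, w ≠ [] → A1.Run w q q c → E c)
    (h2 : ∀ w q c, w ≠ [] → A2.Run w q q c → E c) :
    ∀ w q c, w ≠ [] → (jn A1 A2 I F br).Run w q q c → E c := by
  intro w q c hw h
  rcases q with q | q
  · exact h1 w q c hw (run_inl A1 A2 I F br w q q c h)
  · obtain ⟨q', hq', h'⟩ := run_inr A1 A2 I F br w q _ _ h
    obtain rfl : q = q' := by simpa using hq'
    exact h2 w q c hw h'

variable [Fintype Q1] [Fintype Q2]

theorem vec_inr (hF : ∀ q, F (Sum.inr q) = A2.F q) (w : List σ) : ∀ q,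
    (jn A1 A2 I F br).vec w (Sum.inr q) = A2.vec w q := by
  induction w with
  | nil => intro q; exact hF q
  | cons a w ih =>
    intro q
    simp only [GA.vec, Fintype.sum_sum_type]
    simp only [ih]
    simp [jn]

theorem cnt_inr (hF : ∀ q, F (Sum.inr q) = A2.F q) (w : List σ) : ∀ q,
    (jn A1 A2 I F br).cnt w (Sum.inr q) = A2.cnt w q := by
  induction w with
  | nil => intro q; simp only [GA.cnt]; rw [show (jn A1 A2 I F br).F (Sum.inr q) = A2.F q from hF q]
  | cons a w ih =>
    intro q
    simp only [GA.cnt, Fintype.sum_sum_type]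
    simp only [ih]
    have h0 : ∀ x, (jn A1 A2 I F br).M a (Sum.inr q) (Sum.inl x) = 0 := fun _ => rfl
    simp only [h0, ne_eq, not_true_eq_false, if_false, Finset.sum_const_zero, zero_add]
    rfl

end jn

section same

variable {L σ Q : Type} [Field L]

theorem run_same (A B : GA L σ Q) (hM : A.M = B.M) (w : List σ) : ∀ p q c,
    A.Run w p q c → B.Run w p q c := by
  induction w with
  | nil => intro p q c h; cases h; exact GA.Run.nil p
  | cons a w ih =>
    intro p q c h
    cases h with
    | @cons _ _ _ r _ c h hr =>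
      have := GA.Run.cons (A := B) (a := a) (p := p) (by rw [← hM]; exact h) (ih r q c hr)
      rw [← hM] at this
      exact this

variable [Fintype Q]

theorem vec_same (A B : GA L σ Q) (hM : A.M = B.M) (hF : A.F = B.F) (w : List σ) : ∀ q,
    A.vec w q = B.vec w q := by
  induction w with
  | nil => intro q; simp only [GA.vec]; rw [hF]
  | cons a w ih => intro q; simp only [GA.vec]; simp only [ih, hM]

theorem cnt_same (A B : GA L σ Q) (hM : A.M = B.M) (hF : A.F = B.F) (w : List σ) : ∀ q,
    A.cnt w q = B.cnt w q := by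
  induction w with
  | nil => intro q; simp only [GA.cnt]; rw [hF]
  | cons a w ih =>
    intro q
    simp only [GA.cnt]
    simp only [ih]
    refine Finset.sum_congr rfl fun x _ => ?_
    have : A.M a q x = B.M a q x := by rw [hM]
    by_cases h : B.M a q x = 0
    · rw [if_neg (not_not.2 h), if_neg (not_not.2 (this.trans h))]
    · rw [if_pos h, if_pos (fun h' => h (this.symm.trans h'))]

end same

theorem t_ADD : S_ADD := by
  intro L σ _ E f g ⟨Q1, _, A1, ⟨C1, k1, hC1⟩, hE1, hf⟩ ⟨Q2, _, A2, ⟨C2, k2, hC2⟩, hE2, hg⟩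
  set F : Q1 ⊕ Q2 → L := Sum.elim A1.F A2.F with hF
  set I : Q1 ⊕ Q2 → L := Sum.elim A1.I A2.I with hI
  have v1 : ∀ w q, (jn A1 A2 I F 0).vec w (Sum.inl q) = A1.vec w q := by
    intro w
    induction w with
    | nil => intro q; rfl
    | cons a w ih =>
      intro q
      simp only [GA.vec, Fintype.sum_sum_type]
      simp only [ih]
      simp [jn]
  have c1 : ∀ w q, (jn A1 A2 I F 0).cnt w (Sum.inl q) = A1.cnt w q := by
    intro w
    induction w with
    | nil => intro q; rfl
    | cons a w ih =>
      intro q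
      simp only [GA.cnt, Fintype.sum_sum_type]
      simp only [ih]
      have h0 : ∀ x, (jn A1 A2 I F 0).M a (Sum.inl q) (Sum.inr x) = 0 := fun _ => rfl
      simp only [h0, ne_eq, not_true_eq_false, if_false, Finset.sum_const_zero, add_zero]
      rfl
  refine ⟨Q1 ⊕ Q2, inferInstance, jn A1 A2 I F 0, ⟨C1 + C2, k1 + k2, ?_⟩,
    run_E A1 A2 I F 0 E hE1 hE2, ?_⟩
  · intro w
    have : (jn A1 A2 I F 0).amb w = A1.amb w + A2.amb w := by
      simp only [GA.amb, Fintype.sum_sum_type, c1, cnt_inr A1 A2 I F 0 (fun _ => rfl)]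
      rfl
    rw [this, add_mul]
    refine add_le_add ((hC1 w).trans ?_) ((hC2 w).trans ?_)
    · exact Nat.mul_le_mul_left _ (Nat.pow_le_pow_right (by omega) (by omega))
    · exact Nat.mul_le_mul_left _ (Nat.pow_le_pow_right (by omega) (by omega))
  · intro w
    beta_reduce
    rw [← hf w, ← hg w]
    simp only [GA.val, Fintype.sum_sum_type, v1, vec_inr A1 A2 I F 0 (fun _ => rfl)]
    rfl

theorem t_SMUL : S_SMUL := by
  intro L σ _ E b f ⟨Q, _, A, ⟨C, k, hC⟩, hE, hf⟩
  let B : GA L σ Q := ⟨fun q => b * A.I q, A.M, A.F⟩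
  refine ⟨Q, inferInstance, B, ⟨C, k, ?_⟩, ?_, ?_⟩
  · intro w
    refine le_trans ?_ (hC w)
    simp only [GA.amb]
    refine Finset.sum_le_sum fun q _ => ?_
    rw [cnt_same B A rfl rfl]
    by_cases h : A.I q = 0
    · have : B.I q = 0 := by simp [B, h]
      simp [this]
    · rw [if_pos h]
      split_ifs
      · exact le_rfl
      · exact Nat.zero_le _
  · intro w q c hw h
    exact hE w q c hw (run_same B A rfl w q q c h)
  · intro w
    beta_reduce
    rw [← hf w]
    simp only [GA.val, Finset.mul_sum]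
    refine Finset.sum_congr rfl fun q _ => ?_
    rw [vec_same B A rfl rfl]
    simp only [B]
    ring

theorem t_CONV : S_CONV := by
  intro L σ _ E β f g ⟨Q1, _, A1, ⟨C1, k1, hC1⟩, hE1, hf⟩ ⟨Q2, _, A2, ⟨C2, k2, hC2⟩, hE2, hg⟩
  set F : Q1 ⊕ Q2 → L := Sum.elim (fun _ => 0) A2.F with hF
  set I : Q1 ⊕ Q2 → L := Sum.elim A1.I (fun _ => 0) with hI
  set br : σ → Q1 → Q2 → L := fun a p q => A1.F p * β a * A2.I q with hbr
  have v1 : ∀ w p, (jn A1 A2 I F br).vec w (Sum.inl p) =
      ∑ i : Fin w.length, A1.vec (w.take i) p * β (w.get i) * A2.val (w.drop (i + 1)) := by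
    intro w
    induction w with
    | nil => intro p; rfl
    | cons a w ih =>
      intro p
      simp only [GA.vec, Fintype.sum_sum_type]
      simp only [ih, vec_inr A1 A2 I F br (fun _ => rfl)]
      rw [add_comm]
      simp only [List.length_cons, Fin.sum_univ_succ]
      congr 1
      · simp only [jn, hbr, GA.val, Finset.mul_sum, Fin.val_zero, List.take_zero, List.get_cons_zero,
          GA.vec, zero_add, List.drop_succ_cons, List.drop_zero]
        refine Finset.sum_congr rfl fun q _ => ?_
        ring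
      · simp only [Fin.val_succ, List.take_succ_cons, List.drop_succ_cons, List.get_cons_succ', GA.vec,
          Finset.mul_sum, Finset.sum_mul]
        rw [Finset.sum_comm]
        refine Finset.sum_congr rfl fun i _ => Finset.sum_congr rfl fun q _ => ?_
        simp only [jn]
        ring
  have c1 : ∀ w p, (jn A1 A2 I F br).cnt w (Sum.inl p) ≤
      ∑ i : Fin w.length, A1.cnt (w.take i) p * A2.amb (w.drop (i + 1)) := by
    classical
    intro w
    induction w with
    | nil => intro p; simp [GA.cnt, jn, hF]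
    | cons a w ih =>
      intro p
      simp only [GA.cnt, Fintype.sum_sum_type]
      simp only [cnt_inr A1 A2 I F br (fun _ => rfl)]
      rw [add_comm]
      simp only [List.length_cons, Fin.sum_univ_succ]
      refine add_le_add ?_ ?_
      · simp only [jn, hbr, GA.amb, Finset.mul_sum, Fin.val_zero, List.take_zero,
          GA.cnt, zero_add, List.drop_succ_cons, List.drop_zero]
        refine Finset.sum_le_sum fun q _ => ?_
        by_cases h1 : A1.F p = 0
        · simp [h1]
        · by_cases h2 : A2.I q = 0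
          · simp [h2]
          · rw [if_pos h1, if_pos h2, one_mul]
            split_ifs
            · exact le_rfl
            · exact Nat.zero_le _
      · simp only [Fin.val_succ, List.take_succ_cons, List.drop_succ_cons, GA.cnt,
          Finset.sum_mul]
        rw [Finset.sum_comm]
        refine Finset.sum_le_sum fun q _ => ?_
        by_cases h : A1.M a p q = 0
        · rw [if_neg (not_not.2 (show (jn A1 A2 I F br).M a (Sum.inl p) (Sum.inl q) = 0 from h))]
          exact Nat.zero_le _
        · rw [if_pos (show (jn A1 A2 I F br).M a (Sum.inl p) (Sum.inl q) ≠ 0 from h)]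
          refine (ih q).trans (le_of_eq ?_)
          refine Finset.sum_congr rfl fun i _ => ?_
          rw [if_pos h]
  refine ⟨Q1 ⊕ Q2, inferInstance, jn A1 A2 I F br, ⟨C1 * C2, k1 + k2 + 1, ?_⟩,
    run_E A1 A2 I F br E hE1 hE2, ?_⟩
  · classical
    intro w
    have h1 : (jn A1 A2 I F br).amb w ≤
        ∑ i : Fin w.length, A1.amb (w.take i) * A2.amb (w.drop (i + 1)) := by
      simp only [GA.amb, Fintype.sum_sum_type]
      have h0 : ∀ q : Q2, (jn A1 A2 I F br).I (Sum.inr q) = 0 := fun _ => rfl
      simp only [h0, ne_eq, not_true_eq_false, if_false, Finset.sum_const_zero, add_zero]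
      simp only [Finset.sum_mul]
      rw [Finset.sum_comm]
      refine Finset.sum_le_sum fun q _ => ?_
      by_cases h : A1.I q = 0
      · have : (jn A1 A2 I F br).I (Sum.inl q) = 0 := h
        simp [this]
      · have h' : (jn A1 A2 I F br).I (Sum.inl q) ≠ 0 := h
        rw [if_pos h']
        refine (c1 w q).trans (le_of_eq ?_)
        refine Finset.sum_congr rfl fun i _ => ?_
        rw [if_pos h]
        rfl
    refine h1.trans ?_
    have h2 : ∀ i : Fin w.length, A1.amb (w.take i) * A2.amb (w.drop (i + 1)) ≤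
        (C1 * (w.length + 1) ^ k1) * (C2 * (w.length + 1) ^ k2) := by
      intro i
      refine Nat.mul_le_mul ((hC1 _).trans ?_) ((hC2 _).trans ?_)
      · exact Nat.mul_le_mul_left _ (Nat.pow_le_pow_left (by simp) _)
      · exact Nat.mul_le_mul_left _ (Nat.pow_le_pow_left (by simp) _)
    refine (Finset.sum_le_sum fun i _ => h2 i).trans ?_
    rw [Finset.sum_const, Finset.card_univ, Fintype.card_fin, smul_eq_mul]
    calc w.length * ((C1 * (w.length + 1) ^ k1) * (C2 * (w.length + 1) ^ k2))
        ≤ (w.length + 1) * ((C1 * (w.length + 1) ^ k1) * (C2 * (w.length + 1) ^ k2)) :=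
          Nat.mul_le_mul_right _ (by omega)
      _ = C1 * C2 * (w.length + 1) ^ (k1 + k2 + 1) := by ring
  · intro w
    simp only [GA.val, Fintype.sum_sum_type, conv]
    have h0 : ∀ q : Q2, (jn A1 A2 I F br).I (Sum.inr q) = 0 := fun _ => rfl
    simp only [h0, zero_mul, Finset.sum_const_zero, add_zero, v1, Finset.mul_sum]
    rw [Finset.sum_comm]
    refine Finset.sum_congr rfl fun i _ => ?_
    rw [← hf, ← hg]
    simp only [GA.val, Finset.sum_mul]
    refine Finset.sum_congr rfl fun q _ => ?_
    have : (jn A1 A2 I F br).I (Sum.inl q) = A1.I q := rfl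
    rw [this]
    simp only [Finset.mul_sum]
    refine Finset.sum_congr rfl fun q' _ => ?_
    ring

end Pool.Agent.K1H96.PA
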